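import Pool.Agent.Helper71.PY.Goals

/-!
# Project PY (MP_293fae_al), packet MIX: existence of a maximal integral lattice
-/

set_option autoImplicit false

namespace Pool.Agent.Helper56.PY

open Pool.Agent.Helper71.PY

section
variable {R K : Type} [CommRing R] [Field K] [Algebra R K]

theorem intK_iff {z : K} : IntK R z ↔ z ∈ (algebraMap R K).range := Iff.rfl

theorem intK_zero : IntK R (0 : K) := ⟨0, map_zero _⟩

theorem intK_add {z w : K} (hz : IntK R z) (hw : IntK R w) : IntK R (z + w) := by
  obtain ⟨r, rfl⟩ := hz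
  obtain ⟨s, rfl⟩ := hw
  exact ⟨r + s, map_add _ _ _⟩

theorem intK_smul {z : K} (r : R) (hz : IntK R z) : IntK R (r • z) := by
  obtain ⟨s, rfl⟩ := hz
  exact ⟨r * s, by rw [map_mul, Algebra.smul_def]⟩

theorem intK_map (r : R) : IntK R (algebraMap R K r) := ⟨r, rfl⟩

theorem intK_mul {z w : K} (hz : IntK R z) (hw : IntK R w) : IntK R (z * w) := by
  obtain ⟨r, rfl⟩ := hz
  obtain ⟨s, rfl⟩ := hw
  exact ⟨r * s, map_mul _ _ _⟩

variable {n : ℕ} (d : Fin n → K)

theorem bK_symm (v w : Fin n → K) : bK d v w = bK d w v := by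
  unfold bK
  exact Finset.sum_congr rfl fun i _ => by ring

theorem bK_add_left (v v' w : Fin n → K) : bK d (v + v') w = bK d v w + bK d v' w := by
  unfold bK
  rw [← Finset.sum_add_distrib]
  exact Finset.sum_congr rfl fun i _ => by rw [Pi.add_apply]; ring

theorem bK_add_right (v w w' : Fin n → K) : bK d v (w + w') = bK d v w + bK d v w' := by
  rw [bK_symm, bK_add_left, bK_symm d w, bK_symm d w']

theorem bK_smul_left (r : R) (v w : Fin n → K) : bK d (r • v) w = r • bK d v w := by
  unfold bK
  rw [Finset.smul_sum]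
  exact Finset.sum_congr rfl fun i _ => by
    rw [Pi.smul_apply, Algebra.smul_def, Algebra.smul_def]; ring

theorem bK_smul_right (r : R) (v w : Fin n → K) : bK d v (r • w) = r • bK d v w := by
  rw [bK_symm, bK_smul_left, bK_symm]

theorem bK_zero_left (w : Fin n → K) : bK d 0 w = 0 := by
  unfold bK
  exact Finset.sum_eq_zero fun i _ => by simp

theorem bK_zero_right (w : Fin n → K) : bK d w 0 = 0 := by
  rw [bK_symm, bK_zero_left]

/-- integrality on a span -/
theorem int_span_left (T : Set (Fin n → K)) (w : Fin n → K) (h : ∀ v ∈ T, IntK R (bK d v w)) :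
    ∀ v ∈ Submodule.span R T, IntK R (bK d v w) := by
  intro v hv
  induction hv using Submodule.span_induction with
  | mem v hv => exact h v hv
  | zero => rw [bK_zero_left]; exact intK_zero
  | add v v' _ _ h1 h2 => rw [bK_add_left]; exact intK_add h1 h2
  | smul r v _ h1 => rw [bK_smul_left]; exact intK_smul r h1

theorem int_span (T : Set (Fin n → K)) (h : ∀ v ∈ T, ∀ w ∈ T, IntK R (bK d v w)) :
    ∀ v ∈ Submodule.span R T, ∀ w ∈ Submodule.span R T, IntK R (bK d v w) := by
  intro v hv w hw
  rw [bK_symm]
  refine int_span_left d T v (fun t ht => ?_) w hw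
  rw [bK_symm]
  exact int_span_left d T t (fun s hs => h s hs t ht) v hv

theorem bK_single (v : Fin n → K) (i : Fin n) : bK d v (Pi.single i 1) = d i * v i := by
  unfold bK
  rw [Finset.sum_eq_single i]
  · simp
  · intro j _ hj
    simp [hj]
  · intro h
    exact absurd (Finset.mem_univ i) h

end

theorem mix : Pool.Agent.Helper71.PY.G_MIX := by
  intro R _ _ _ K _ _ _ n u hu X hX
  set d : Fin n → K := fun i => algebraMap R K (u i) with hd
  have hinj : Function.Injective (algebraMap R K) := IsFractionRing.injective R K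
  -- common denominators
  have hden : ∀ v : Fin n → K, ∃ r : R, r ≠ 0 ∧ ∀ i, IntK R (algebraMap R K r * v i) := by
    intro v
    obtain ⟨b, hb⟩ := IsLocalization.exist_integer_multiples_of_finite (nonZeroDivisors R) v
    refine ⟨b, nonZeroDivisors.coe_ne_zero b, fun i => ?_⟩
    obtain ⟨r, hr⟩ := hb i
    exact ⟨r, by rw [hr, Algebra.smul_def]⟩
  obtain ⟨a, ha0, ha⟩ := hden X
  have haK : algebraMap R K a ≠ 0 := fun h => ha0 (hinj (by rw [h, map_zero]))
  have huK : ∀ i, algebraMap R K (u i) ≠ 0 := fun i h => hu i (hinj (by rw [h, map_zero]))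
  let T : Set (Fin n → K) := insert X (Set.range fun i : Fin n => a • (Pi.single i 1 : Fin n → K))
  have hbe : ∀ (v : Fin n → K) (i : Fin n), bK d v (a • (Pi.single i 1 : Fin n → K)) =
      algebraMap R K (a * u i) * v i := by
    intro v i
    rw [bK_smul_right, bK_single, Algebra.smul_def, map_mul, hd]
    ring
  have hT : ∀ v ∈ T, ∀ w ∈ T, IntK R (bK d v w) := by
    have h1 : ∀ i, IntK R (bK d X (a • (Pi.single i 1 : Fin n → K))) := by
      intro i
      rw [hbe, mul_comm a, map_mul, mul_assoc]
      exact intK_mul (intK_map _) (ha i)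
    have h2 : ∀ i j, IntK R (bK d (a • (Pi.single j 1 : Fin n → K))
        (a • (Pi.single i 1 : Fin n → K))) := by
      intro i j
      rw [hbe]
      refine intK_mul (intK_map _) ?_
      rw [Pi.smul_apply, Algebra.smul_def]
      refine intK_mul (intK_map _) ?_
      rw [Pi.single_apply]
      split_ifs
      · exact ⟨1, map_one _⟩
      · exact intK_zero
    rintro v (rfl | ⟨i, rfl⟩) w (rfl | ⟨j, rfl⟩)
    · exact hX
    · exact h1 j
    · rw [bK_symm]
      exact h1 i
    · exact h2 j i
  -- the big lattice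
  let φ : (Fin n → R) →ₗ[R] (Fin n → K) :=
    { toFun := fun c i => algebraMap R K (c i) / algebraMap R K (a * u i)
      map_add' := by
        intro c c'
        funext i
        simp only [Pi.add_apply, map_add]
        ring
      map_smul' := by
        intro r c
        funext i
        simp only [Pi.smul_apply, smul_eq_mul, map_mul, RingHom.id_apply, Algebra.smul_def]
        ring }
  let L' : Submodule R (Fin n → K) := LinearMap.range φ
  have hL'N : IsNoetherian R L' := by
    unfold L'
    infer_instance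
  have hau : ∀ i, algebraMap R K (a * u i) ≠ 0 := by
    intro i
    rw [map_mul]
    exact mul_ne_zero haK (huK i)
  have hmemL' : ∀ v : Fin n → K, (∀ i, IntK R (algebraMap R K (a * u i) * v i)) → v ∈ L' := by
    intro v hv
    choose c hc using hv
    refine ⟨c, ?_⟩
    funext i
    change algebraMap R K (c i) / algebraMap R K (a * u i) = v i
    rw [hc i, mul_div_cancel_left₀ _ (hau i)]
  -- the set of integral lattices
  let P : Submodule R (Fin n → K) → Prop := fun M =>
    (∀ t ∈ T, t ∈ M) ∧ ∀ v ∈ M, ∀ w ∈ M, IntK R (bK d v w)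
  have hPL : ∀ M, P M → M ≤ L' := by
    intro M hM v hv
    refine hmemL' v fun i => ?_
    rw [← hbe v i]
    exact hM.2 v hv _ (hM.1 _ (Set.mem_insert_of_mem _ ⟨i, rfl⟩))
  have hP0 : P (Submodule.span R T) := ⟨fun t ht => Submodule.subset_span ht, int_span d T hT⟩
  have hwf : WellFounded (fun x y : Submodule R L' => y < x) := (wellFounded_gt : WellFounded
    ((· > ·) : Submodule R L' → Submodule R L' → Prop))
  obtain ⟨M', hM'P, hM'⟩ := hwf.has_min {M' : Submodule R L' | P (M'.map L'.subtype)}
    ⟨(Submodule.span R T).comap L'.subtype, by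
      change P _
      rw [Submodule.map_comap_subtype, inf_eq_right.2 (hPL _ hP0)]
      exact hP0⟩
  set M := M'.map L'.subtype with hMdef
  have hMP : P M := hM'P
  have hmax : ∀ M₁, P M₁ → M ≤ M₁ → M₁ ≤ M := by
    intro M₁ h1 h2
    have h3 : P ((M₁.comap L'.subtype).map L'.subtype) := by
      rw [Submodule.map_comap_subtype, inf_eq_right.2 (hPL _ h1)]
      exact h1
    have h4 := hM' _ h3
    have h5 : M' ≤ M₁.comap L'.subtype := by
      rw [← Submodule.map_le_iff_le_comap]
      exact h2
    have h6 : M' = M₁.comap L'.subtype := by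
      by_contra hne
      exact h4 (lt_of_le_of_ne h5 hne)
    rw [hMdef, h6, Submodule.map_comap_subtype, inf_eq_right.2 (hPL _ h1)]
  refine ⟨M, ⟨?_, ?_, hMP.2, ?_⟩, hMP.1 X (Set.mem_insert _ _)⟩
  · exact isNoetherian_submodule.1 hL'N M (hPL M hMP)
  · intro v
    obtain ⟨r, hr0, hr⟩ := hden v
    choose c hc using hr
    refine ⟨a * r, mul_ne_zero ha0 hr0, ?_⟩
    have h1 : (a * r) • v = ∑ i, c i • (a • (Pi.single i 1 : Fin n → K)) := by
      funext j
      rw [Finset.sum_apply, Finset.sum_eq_single j]
      · rw [Pi.smul_apply, Pi.smul_apply, Pi.smul_apply, Pi.single_eq_same, Algebra.smul_def,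
          Algebra.smul_def, Algebra.smul_def, mul_one, map_mul, hc j]
        ring
      · intro i _ hij
        simp [hij.symm]
      · intro h
        exact absurd (Finset.mem_univ j) h
    rw [h1]
    exact Submodule.sum_mem _ fun i _ => Submodule.smul_mem _ _
      (hMP.1 _ (Set.mem_insert_of_mem _ ⟨i, rfl⟩))
  · intro v hv hvv
    have h1 : P (M ⊔ Submodule.span R {v}) := by
      refine ⟨fun t ht => Submodule.mem_sup_left (hMP.1 t ht), ?_⟩
      intro x hx y hy
      obtain ⟨m, hm, z, hz, rfl⟩ := Submodule.mem_sup.1 hx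
      obtain ⟨m', hm', z', hz', rfl⟩ := Submodule.mem_sup.1 hy
      obtain ⟨r, rfl⟩ := Submodule.mem_span_singleton.1 hz
      obtain ⟨r', rfl⟩ := Submodule.mem_span_singleton.1 hz'
      rw [bK_add_left, bK_add_right, bK_add_right, bK_smul_left, bK_smul_left, bK_smul_right,
        bK_smul_right]
      refine intK_add (intK_add (hMP.2 m hm m' hm') (intK_smul _ ?_))
        (intK_add (intK_smul _ (hv m' hm')) (intK_smul _ (intK_smul _ hvv)))
      rw [bK_symm]
      exact hv m hm
    exact hmax _ h1 le_sup_left (Submodule.mem_sup_right (Submodule.mem_span_singleton_self v))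

end Pool.Agent.Helper56.PY
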